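import Pool.Agent.U508.NC.CritFin

/-!
# The critical path between two points (`n = 0`)

For `n = 0` the configurations of the model are the self-avoiding paths `γ` from `a` to `b` in a finite
set `D` of vertices of the hexagonal lattice, with weight `x ^ |γ|`. We take `x = x_c = (2 + √2)^(-1/2)`.

Let `a` and `b` be joined in `D` by a chain of `m` steps; a step goes to a neighbour, or to another point of a
box around which there is free space of the order of its size, or from a point of a flat part of the boundary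
to the interior. We prove

* the partition function is between `exp (- C m log² |D|)` and `exp (C log² |D|)`;
* the path stays in a given subdomain, and passes through a given edge of the interior, with a probability of
  at least `exp (- C (m + 1) log² |D|)`;
* except with probability `exp (C (m + 1) log² |D| - c h / L)`, the path has no piece which stays in a strip
  of width `L` (in one of the three lattice directions) and advances there by `h`.

The proof: two paths `a → b` and `b → c` are cut at the first intersection, which gives a path `a → c` and two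
walks from `b`; with the bound `exp (K log² n)` for the critical mass of the self-avoiding walks, critical
two-point functions can be multiplied up to the factor `exp (K log² |D|)`. Critical bridges near a line,
reflected at the most likely end point, give paths with a fixed displacement.
-/

set_option autoImplicit false

namespace Pool.Agent.Results.MP_4960b8_pr.CriticalPartitionFunction

/-- Neighbours in the hexagonal lattice, in brick-wall coordinates: the vertices are the points of `ℤ × ℤ`,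
all horizontal edges are there, and the vertical edges from `(x, y)` to `(x, y + 1)` with `x + y` even. -/
def Nbr (p q : ℤ × ℤ) : Prop :=
  (p.2 = q.2 ∧ (p.1 - q.1 = 1 ∨ q.1 - p.1 = 1)) ∨
    (p.1 = q.1 ∧ ((q.2 = p.2 + 1 ∧ Even (p.1 + p.2)) ∨ (p.2 = q.2 + 1 ∧ Even (q.1 + q.2))))

/-- The critical point for `n = 0`. -/
noncomputable def xc : ℝ := (Real.sqrt (2 + Real.sqrt 2))⁻¹

/-- The self-avoiding paths from `a` to `b` in the finite set `D`, as lists of vertices. -/
def paths (D : Finset (ℤ × ℤ)) (a b : ℤ × ℤ) : Set (List (ℤ × ℤ)) :=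
  {l | l.head? = some a ∧ l.getLast? = some b ∧ l.IsChain Nbr ∧ l.Nodup ∧ ∀ p ∈ l, p ∈ D}

/-- The number of edges. -/
def edges (l : List (ℤ × ℤ)) : ℕ := l.length - 1

/-- The sum of the weights `x_c ^ |γ|` over a set of paths. The probability of a set `E` of paths from `a` to
`b` in `D` is `Z E / Z (paths D a b)`. -/
noncomputable def Z (S : Set (List (ℤ × ℤ))) : ℝ := ∑' l : S, xc ^ edges l.1

/-- The automorphisms of the lattice. -/
def Auto (f : ℤ × ℤ → ℤ × ℤ) : Prop := Function.Bijective f ∧ ∀ p q, Nbr p q ↔ Nbr (f p) (f q)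

/-- One step in `D`: (i) to a neighbour; (ii) by at most `M`, if `D` contains the box of radius `4 M` around
the first point; (iii) from the boundary point `f (0, 0)` to `f (0, 4 M)`, if `D` contains the image under the
automorphism `f` of the half-box `|x| ≤ 8 M`, `0 ≤ y ≤ 8 M`. -/
def Step (D : Finset (ℤ × ℤ)) (p q : ℤ × ℤ) : Prop :=
  (Nbr p q ∧ p ∈ D ∧ q ∈ D) ∨
  (∃ M : ℕ, 1 ≤ M ∧ |q.1 - p.1| ≤ M ∧ |q.2 - p.2| ≤ M ∧
    ∀ z : ℤ × ℤ, |z.1 - p.1| ≤ 4 * M → |z.2 - p.2| ≤ 4 * M → z ∈ D) ∨
  (∃ (f : ℤ × ℤ → ℤ × ℤ) (M : ℕ), Auto f ∧ 1 ≤ M ∧ p = f (0, 0) ∧ q = f (0, 4 * (M : ℤ)) ∧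
    ∀ z : ℤ × ℤ, |z.1| ≤ 8 * M → 0 ≤ z.2 → z.2 ≤ 8 * M → f z ∈ D)

/-- The points `a` and `b` are joined in `D` by a chain of `m` steps, in either direction. -/
def Joined (D : Finset (ℤ × ℤ)) (m : ℕ) (a b : ℤ × ℤ) : Prop :=
  ∃ c : ℕ → ℤ × ℤ, c 0 = a ∧ c m = b ∧ a ∈ D ∧
    ∀ i < m, Step D (c i) (c (i + 1)) ∨ Step D (c (i + 1)) (c i)

/-- The paths with a piece `s` which stays in the image under `f` of a strip `u ≤ x < u + L`, and whose end
points `f p`, `f q` are at distance at least `h` along the strip. -/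
def thin (D : Finset (ℤ × ℤ)) (a b : ℤ × ℤ) (f : ℤ × ℤ → ℤ × ℤ) (L h : ℕ) : Set (List (ℤ × ℤ)) :=
  {l | l ∈ paths D a b ∧ ∃ s : List (ℤ × ℤ), s <:+: l ∧
    (∃ u : ℤ, ∀ z, f z ∈ s → u ≤ z.1 ∧ z.1 < u + L) ∧
    ∃ p q, s.head? = some (f p) ∧ s.getLast? = some (f q) ∧ (h : ℤ) ≤ |q.2 - p.2|}

/-- **Main theorem.** See the header. -/
theorem result : ∃ C : ℝ, 0 < C ∧ ∀ (D : Finset (ℤ × ℤ)) (a b : ℤ × ℤ),
    (Z (paths D a b) ≤ Real.exp (C * Real.log (D.card + 2) ^ 2)) ∧
    (∀ m : ℕ, Joined D m a b → Real.exp (-(C * m * Real.log (D.card + 2) ^ 2)) ≤ Z (paths D a b)) ∧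
    (∀ (D' : Finset (ℤ × ℤ)) (m : ℕ), D' ⊆ D → Joined D' m a b →
      Real.exp (-(C * (m + 1) * Real.log (D.card + 2) ^ 2)) * Z (paths D a b) ≤ Z (paths D' a b)) ∧
    (∀ (D₁ D₂ : Finset (ℤ × ℤ)) (m n : ℕ) (z z' : ℤ × ℤ), D₁ ⊆ D → D₂ ⊆ D → Disjoint D₁ D₂ → Nbr z z' →
      Joined D₁ m a z → Joined D₂ n z' b →
      Real.exp (-(C * (m + n + 1) * Real.log (D.card + 2) ^ 2)) * Z (paths D a b) ≤
        Z {l | l ∈ paths D a b ∧ [z, z'] <:+: l}) ∧
    (∀ (m : ℕ) (f : ℤ × ℤ → ℤ × ℤ) (L h : ℕ), Joined D m a b → Auto f → 1 ≤ L → L ≤ D.card →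
      Z (thin D a b f L h) ≤
        Real.exp (C * (m + 1) * Real.log (D.card + 2) ^ 2 - Real.log 2 / 32 * (h / L)) *
          Z (paths D a b)) := by
  obtain ⟨C, hC, h⟩ := Pool.Agent.U508.NC.crit_main
  exact ⟨C, hC, fun D a b => h D a b⟩

end Pool.Agent.Results.MP_4960b8_pr.CriticalPartitionFunction
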