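import Pool.Agent.U198.LO.Cfg

/-!
The loop O(n) model with two boundary points on the honeycomb lattice, for ALL `n > 0` and ALL
`x > 0`: the number `N` of edges of the path from `a` to `b`. The joint law of `N` and of ALL the
loops is smooth in `N` to all orders, uniformly in `n` and `x` (compact sets), in the width of the
rectangle and in the two boundary points.

Library (`Pool.Agent.U198.LO`): `HE W H` (edges of the honeycomb lattice, drawn as a brick wall, in
the rectangle `[0, W] × [0, H]`), `dg F v` (number of edges of `F` at `v`), `Cf W H a b` (the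
configurations: every vertex has degree 0 or 2, except `a` and `b` of degree 1), `Pt a F` (edges of
the path: the component of `a`), `Lo a F` (edges of the loops: all the other edges), `Ls a F` (the set
of the loops: the components of `Lo a F`), `wt n x a F = x ^ (edges of F) n ^ (loops)`.
-/

set_option autoImplicit false

namespace Pool.Agent.Results.MP_4960b8_pr.LoopStepsAllN

open H974 Pool.Agent.U198.LO

/-- The mean value of `f` in the loop O(n) model. -/
noncomputable def mean (n x : ℝ) (W H : ℕ) (a b : Vtx) (f : Finset Edg → ℝ) : ℝ :=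
  (∑ F ∈ Cf W H a b, wt n x a F * f F) / ∑ F ∈ Cf W H a b, wt n x a F

/-- The number of edges of the path. -/
noncomputable def steps (a : Vtx) (F : Finset Edg) : ℕ := (Pt a F).card

open Pool.Agent.N929.EG in
theorem cos_diff (t s : ℝ) (r n : ℕ) :
    Seq.D 4 r (fun n => Real.cos (t * n + s)) n =
      (2 * Real.sin (2 * t)) ^ r * Real.cos (t * n + (s + r * (2 * t - Real.pi / 2))) := by
  induction r generalizing n with
  | zero => simp [Seq.D_zero]
  | succ r ih =>
    rw [Seq.D_succ, ih, ih, ← mul_sub, pow_succ, mul_assoc]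
    congr 1
    obtain ⟨a, ha⟩ : ∃ a : ℝ, a = t * n + s + r * (2 * t - Real.pi / 2) := ⟨_, rfl⟩
    have e1 : t * (n : ℝ) + (s + r * (2 * t - Real.pi / 2)) = a := by rw [ha]; ring
    have e2 : t * ((n + 4 : ℕ) : ℝ) + (s + r * (2 * t - Real.pi / 2)) = a + 4 * t := by
      rw [ha]
      push_cast
      ring
    have e3 : t * (n : ℝ) + (s + ((r + 1 : ℕ) : ℝ) * (2 * t - Real.pi / 2)) =
        (a + 2 * t) - Real.pi / 2 := by
      rw [ha]
      push_cast
      ring
    rw [e1, e2, e3, Real.cos_sub_pi_div_two, Real.cos_sub_cos]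
    have e4 : (a + (a + 4 * t)) / 2 = a + 2 * t := by ring
    have e5 : (a - (a + 4 * t)) / 2 = -(2 * t) := by ring
    rw [e4, e5, Real.sin_neg]
    ring

open Pool.Agent.N929.EG in
theorem D_smul (h r : ℕ) (G : ℝ) (u : ℕ → ℝ) (n : ℕ) :
    Seq.D h r (fun m => G * u m) n = G * Seq.D h r u n := by
  unfold Seq.D
  rw [Finset.mul_sum]
  refine Finset.sum_congr rfl fun i _ => ?_
  ring

open Pool.Agent.N929.EG in
/-- **Theorem.** Let `c ≥ 1` and `r ≥ 0`. There is `B` such that for all `n` and `x` in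
`[1 / c, c]`, every rectangle `[0, W] × [0, H]` of the brick wall (`W ≥ 4` even, `H ≥ 1`), every
vertex `a = (α, 0)` of its lowest row without an edge to the next row (`α` odd) and every vertex
`b = (β, H)` of its highest row without an edge to the row below (`β + H` even), the number `N` of
edges of the path from `a` to `b` and the set `L` of all the edges of the loops satisfy, in the loop
O(n) model with weights `x ^ (edges) n ^ (loops)`: (0) the partition function is positive and
`N ≥ H`; (1) `|∑_i (-1)^i (r choose i) E g(L, N + 4 i)| ≤ B H^(-r/2)` for all functions `g` with values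
in `[-1, 1]`; (2) `|∑_i (-1)^i (r choose i) E [G(L); N + 4 i = k(L)]| ≤ B H^(-(r+1)/2)` for all
functions `k` and all functions `G` with values in `[-1, 1]`; (3)
`|2 sin 2t|^r |E [G(L) cos (t N + s(L))]| ≤ B H^(-r/2)` for all real `t`, all functions `s` and all
functions `G` with values in `[-1, 1]`. -/
theorem result (c : ℝ) (hc : 1 ≤ c) (r : ℕ) : ∃ B : ℝ, ∀ n x : ℝ, 1 / c ≤ n → n ≤ c →
    1 / c ≤ x → x ≤ c → ∀ (W H : ℕ) (α β : ℤ), Even W → 4 ≤ W → 1 ≤ H →
    0 ≤ α → α ≤ W → Odd α → 0 ≤ β → β ≤ W → Even (β + H) → ∀ a b : Vtx, a = (α, 0) →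
    b = (β, (H : ℤ)) →
      0 < ∑ F ∈ Cf W H a b, wt n x a F ∧
      (∀ F ∈ Cf W H a b, H ≤ steps a F) ∧
      (∀ g : Finset Edg → ℕ → ℝ, (∀ L m, |g L m| ≤ 1) →
        |∑ i ∈ Finset.range (r + 1), (-1 : ℝ) ^ i * (r.choose i : ℝ) *
          mean n x W H a b (fun F => g (Lo a F) (steps a F + 4 * i))| ≤
          B / Real.sqrt H ^ r) ∧
      (∀ (k : Finset Edg → ℕ) (G : Finset Edg → ℝ), (∀ L, |G L| ≤ 1) →
        |∑ i ∈ Finset.range (r + 1), (-1 : ℝ) ^ i * (r.choose i : ℝ) *
          mean n x W H a b (fun F => G (Lo a F) *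
            if steps a F + 4 * i = k (Lo a F) then 1 else 0)| ≤ B / Real.sqrt H ^ (r + 1)) ∧
      ∀ (t : ℝ) (s G : Finset Edg → ℝ), (∀ L, |G L| ≤ 1) →
        |2 * Real.sin (2 * t)| ^ r *
          |mean n x W H a b (fun F => G (Lo a F) * Real.cos (t * steps a F + s (Lo a F)))| ≤
          B / Real.sqrt H ^ r := by
  obtain ⟨B1, hB1, h1⟩ := mainL hc r
  obtain ⟨B2, hB2, h2⟩ := mainL hc (r + 1)
  refine ⟨max B1 B2, ?_⟩
  intro n x hn1 hn2 hx1 hx2 W H α β hW hW4 hH hα0 hαW hα hβ0 hβW hβ a b ha hb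
  have hc0 : 0 < c := by linarith
  have hci : 0 < 1 / c := by positivity
  have Bp : Bd c n x := by
    refine ⟨hc, lt_of_lt_of_le hci hn1, lt_of_lt_of_le hci hx1, hn2, ?_, hx2, ?_⟩
    · rw [div_le_iff₀ hc0] at hn1
      linarith
    · rw [div_le_iff₀ hc0] at hx1
      linarith
  have ha2 : a.2 = 0 := by rw [ha]
  have hb2 : b.2 = H := by rw [hb]
  have hCf : Cf W H a b = LC W H a b := by
    rw [ha, hb]
    exact Cf_eq hα hβ
  have hne : (LC W H a b).Nonempty := by
    rw [ha, hb]
    exact LC_ne (by omega) hH hα0 hαW hβ0 hβW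
  have hw : ∀ F, 0 < wt n x a F := wt_pos Bp a
  have hZ : 0 < ∑ F ∈ Cf W H a b, wt n x a F := by
    rw [hCf]
    exact Finset.sum_pos (fun F _ => hw F) hne
  have hH0 : (0 : ℝ) < H := by exact_mod_cast hH
  have hsq : ∀ r, 0 < Real.sqrt H ^ r := fun r => pow_pos (Real.sqrt_pos.2 hH0) r
  -- differences of the mean value
  have key : ∀ (r : ℕ) (g : Finset Edg → ℕ → ℝ),
      ∑ i ∈ Finset.range (r + 1), (-1 : ℝ) ^ i * (r.choose i : ℝ) *
      mean n x W H a b (fun F => g (Lo a F) (steps a F + 4 * i)) =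
      mean n x W H a b (fun F => Seq.D 4 r (g (Lo a F)) (steps a F)) := by
    intro r g
    unfold mean
    simp_rw [← mul_div_assoc]
    rw [← Finset.sum_div]
    congr 1
    unfold Seq.D
    simp_rw [Finset.mul_sum]
    rw [Finset.sum_comm]
    refine Finset.sum_congr rfl fun F _ => Finset.sum_congr rfl fun i _ => ?_
    ring
  have gen : ∀ (r : ℕ) (C : ℝ) (g : Finset Edg → ℕ → ℝ),
      |∑ F ∈ LC W H a b, wt n x a F * Seq.D 4 r (g (Lo a F)) (Pt a F).card| ≤
        C / Real.sqrt H ^ r * ∑ F ∈ LC W H a b, wt n x a F →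
      |mean n x W H a b (fun F => Seq.D 4 r (g (Lo a F)) (steps a F))| ≤
        C / Real.sqrt H ^ r := by
    intro r C g h
    unfold mean steps
    rw [hCf] at hZ ⊢
    rw [abs_div, abs_of_pos hZ, div_le_iff₀ hZ]
    exact h
  have main1 : ∀ g : Finset Edg → ℕ → ℝ, (∀ L m, |g L m| ≤ 1) →
      |mean n x W H a b (fun F => Seq.D 4 r (g (Lo a F)) (steps a F))| ≤
        max B1 B2 / Real.sqrt H ^ r := by
    intro g hg
    refine (gen r B1 g (h1 n x Bp W H a b hW hW4 hH ha2 hb2 g hg)).trans ?_
    exact div_le_div_of_nonneg_right (le_max_left _ _) (hsq r).le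
  have main2 : ∀ g : Finset Edg → ℕ → ℝ, (∀ L m, |g L m| ≤ 1) →
      |mean n x W H a b (fun F => Seq.D 4 (r + 1) (g (Lo a F)) (steps a F))| ≤
        max B1 B2 / Real.sqrt H ^ (r + 1) := by
    intro g hg
    refine (gen (r + 1) B2 g (h2 n x Bp W H a b hW hW4 hH ha2 hb2 g hg)).trans ?_
    exact div_le_div_of_nonneg_right (le_max_right _ _) (hsq (r + 1)).le
  refine ⟨hZ, fun F hF => ?_, fun g hg => ?_, fun k G hG => ?_, fun t s G hG => ?_⟩
  · rw [hCf] at hF
    exact le_Pt ha2 hb2 hF
  · rw [key]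
    exact main1 g hg
  · obtain ⟨g, hg⟩ : ∃ g : ℕ → ℕ → ℝ,
        g = fun k n => if k + 4 ≤ n ∧ n % 4 = k % 4 then (-1 : ℝ) else 0 := ⟨_, rfl⟩
    have e1 : ∀ k, Seq.D 4 1 (g k) = fun n => if n = k then (1 : ℝ) else 0 := by
      intro k
      funext n
      rw [Seq.D_one, hg]
      simp only
      by_cases h7 : n = k
      · subst h7
        rw [if_neg (by omega), if_pos (by omega), if_pos rfl]
        norm_num
      · rw [if_neg h7]
        by_cases h8 : k + 4 ≤ n ∧ n % 4 = k % 4
        · rw [if_pos h8, if_pos (by omega)]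
          norm_num
        · rw [if_neg h8, if_neg (by omega)]
          norm_num
    have h3 := main2 (fun L m => G L * g (k L) m) (fun L m => by
      rw [hg, abs_mul]
      have h4 : |(if k L + 4 ≤ m ∧ m % 4 = k L % 4 then (-1 : ℝ) else 0)| ≤ 1 := by
        split_ifs <;> norm_num
      calc |G L| * |(if k L + 4 ≤ m ∧ m % 4 = k L % 4 then (-1 : ℝ) else 0)| ≤ 1 * 1 :=
            mul_le_mul (hG L) h4 (abs_nonneg _) zero_le_one
        _ = 1 := one_mul 1)
    have e2 : ∀ (L : Finset Edg) (n : ℕ), Seq.D 4 (r + 1) (fun m => G L * g (k L) m) n =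
        Seq.D 4 r (fun n => G L * if n = k L then (1 : ℝ) else 0) n := by
      intro L n
      rw [D_smul, D_smul, ← e1, Seq.D_D]
    simp only [e2] at h3
    rw [← key r (fun L n => G L * if n = k L then (1 : ℝ) else 0)] at h3
    exact h3
  · have h3 := main1 (fun L n => G L * Real.cos (t * n + (s L - r * (2 * t - Real.pi / 2))))
      (fun L n => by
        rw [abs_mul]
        calc |G L| * |Real.cos (t * n + (s L - r * (2 * t - Real.pi / 2)))| ≤ 1 * 1 :=
              mul_le_mul (hG L) (Real.abs_cos_le_one _) (abs_nonneg _) zero_le_one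
          _ = 1 := one_mul 1)
    have e1 : ∀ F : Finset Edg, Seq.D 4 r
        (fun n => G (Lo a F) * Real.cos (t * n + (s (Lo a F) - r * (2 * t - Real.pi / 2))))
          (steps a F) =
        (2 * Real.sin (2 * t)) ^ r * (G (Lo a F) * Real.cos (t * steps a F + s (Lo a F))) := by
      intro F
      rw [D_smul, cos_diff]
      have e2 : s (Lo a F) - r * (2 * t - Real.pi / 2) + r * (2 * t - Real.pi / 2) =
          s (Lo a F) := by ring
      rw [e2]
      ring
    have e2 : mean n x W H a b (fun F => (2 * Real.sin (2 * t)) ^ r *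
        (G (Lo a F) * Real.cos (t * steps a F + s (Lo a F)))) =
        (2 * Real.sin (2 * t)) ^ r *
          mean n x W H a b (fun F => G (Lo a F) * Real.cos (t * steps a F + s (Lo a F))) := by
      unfold mean
      rw [← mul_div_assoc, Finset.mul_sum]
      congr 1
      refine Finset.sum_congr rfl fun F _ => ?_
      ring
    simp only [e1] at h3
    rw [e2, abs_mul, abs_pow] at h3
    exact h3

end Pool.Agent.Results.MP_4960b8_pr.LoopStepsAllN
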