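import Pool.Agent.U508.NC.Fin

/-!
# The dense phase of the boundary path (`n = 0`) near the critical point

For `n = 0` the configurations of the model are the self-avoiding paths `γ` from `a` to `b` in a finite
set `D` of vertices of the hexagonal lattice, with weight `x ^ |γ|`, and `x_c = (2 + √2)^(-1/2)`. We prove
explicit bounds for all `x = x_c e^ε > x_c`. With `ρ = min(ε, 1) / (10^6 log²(2 / min(ε, 1)))`:

* the partition function is at least `exp (2 ε ρ A H)` up to a perimeter factor as soon as `D` contains an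
  `A × H` box, and the number of edges of the random path is at least `ρ A H` except with a probability which
  is exponentially small in the area; at most, the partition function is `exp (ε |D| + K log² |D|)`;
* this holds uniformly near the critical point: for boxes of size `N` down to `ε = K log N / √N`.

The proof: critical bridges near to a vertical line have a mass which is not smaller than a power of their
height; a chain of bridges of height `h` has at least `2 h` steps, which for `x > x_c` gives a weight larger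
than one already for bridges of height `ε^(-1) log (1 / ε)`; such chains are put in the columns of the box,
upwards and downwards in turn. The upper bounds use the bound `exp (K log² n)` for `c_n / μ^n`.
-/

set_option autoImplicit false

open Filter

namespace Pool.Agent.Results.MP_4960b8_pr.NearCriticalLength

/-- Neighbours in the hexagonal lattice, in brick-wall coordinates: the vertices are the points of `ℤ × ℤ`,
all horizontal edges are there, and the vertical edges from `(x, y)` to `(x, y + 1)` with `x + y` even. -/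
def Nbr (p q : ℤ × ℤ) : Prop :=
  (p.2 = q.2 ∧ (p.1 - q.1 = 1 ∨ q.1 - p.1 = 1)) ∨
    (p.1 = q.1 ∧ ((q.2 = p.2 + 1 ∧ Even (p.1 + p.2)) ∨ (p.2 = q.2 + 1 ∧ Even (q.1 + q.2))))

/-- The critical point for `n = 0`. -/
noncomputable def xc : ℝ := (Real.sqrt (2 + Real.sqrt 2))⁻¹

/-- The self-avoiding paths from `a` to `b` in the finite set `D`, as lists of vertices. -/
def paths (D : Finset (ℤ × ℤ)) (a b : ℤ × ℤ) : Set (List (ℤ × ℤ)) :=
  {l | l.head? = some a ∧ l.getLast? = some b ∧ l.IsChain Nbr ∧ l.Nodup ∧ ∀ p ∈ l, p ∈ D}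

/-- The number of edges. -/
def edges (l : List (ℤ × ℤ)) : ℕ := l.length - 1

/-- The sum of the weights `x ^ |γ|` over a set of paths. The probability of a set `E` of paths from `a` to
`b` in `D` is `Z x E / Z x (paths D a b)`. -/
noncomputable def Z (x : ℝ) (S : Set (List (ℤ × ℤ))) : ℝ := ∑' l : S, x ^ edges l.1

/-- The vertices `(u, v), (u + 1, v), …, (u + A - 1, v)`, the bottom row of a box. -/
def bottom (u v : ℤ) (A : ℕ) : List (ℤ × ℤ) := (List.range A).map (fun i : ℕ => (u + i, v))

/-- The box of the `A H` vertices `(u + i, v + j)`, `i < A`, `j < H`, is contained in `D`, and the path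
`P ++ bottom ++ Q` is a path from `a` to `b` in `D` whose parts `P` and `Q` avoid the box. -/
def BoxIn (D : Finset (ℤ × ℤ)) (a b : ℤ × ℤ) (u v : ℤ) (A H : ℕ) (P Q : List (ℤ × ℤ)) : Prop :=
  P ++ bottom u v A ++ Q ∈ paths D a b ∧ ∀ i j : ℕ, i < A → j < H →
    (u + (i : ℤ), v + (j : ℤ)) ∈ D ∧ (u + (i : ℤ), v + (j : ℤ)) ∉ P ∧ (u + (i : ℤ), v + (j : ℤ)) ∉ Q

/-- The density `ρ(ε)`. -/
noncomputable def rho (ε : ℝ) : ℝ := min ε 1 / (1000000 * Real.log (2 / min ε 1) ^ 2)

/-- The paths with at most `ρ(ε) A H` edges. -/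
def short (D : Finset (ℤ × ℤ)) (a b : ℤ × ℤ) (ε : ℝ) (A H : ℕ) : Set (List (ℤ × ℤ)) :=
  {l | l ∈ paths D a b ∧ ((edges l : ℕ) : ℝ) ≤ rho ε * A * H}

/-- **Main theorem.** See the header. -/
theorem result :
    (∃ K : ℝ, 0 ≤ K ∧ ∀ ε : ℝ, 0 < ε → ∀ (D : Finset (ℤ × ℤ)) (a b : ℤ × ℤ),
      Z (xc * Real.exp ε) (paths D a b) ≤ Real.exp (ε * D.card + K * Real.log (D.card + 2) ^ 2) ∧
      ∀ (u v : ℤ) (A H : ℕ) (P Q : List (ℤ × ℤ)), BoxIn D a b u v A H P Q →
        Real.exp (2 * ε * rho ε * A * H - 7 * (1 + ε) * (P.length + Q.length + A + H)) ≤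
          Z (xc * Real.exp ε) (paths D a b) ∧
        Z (xc * Real.exp ε) (short D a b ε A H) ≤
          Real.exp (-(ε * rho ε * A * H) + 7 * (1 + ε) * (P.length + Q.length + A + H) +
            K * Real.log (D.card + 2) ^ 2) * Z (xc * Real.exp ε) (paths D a b)) ∧
    (∀ κ : ℝ, 0 < κ → ∃ K : ℝ, 0 < K ∧ ∀ᶠ N : ℕ in atTop, ∀ ε : ℝ, K * Real.log N / Real.sqrt N ≤ ε →
      ∀ (D : Finset (ℤ × ℤ)) (a b : ℤ × ℤ) (u v : ℤ) (A H : ℕ) (P Q : List (ℤ × ℤ)),
        BoxIn D a b u v A H P Q → (D.card : ℝ) ≤ N ^ 2 / κ →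
        (P.length : ℝ) + Q.length + A + H ≤ N / κ → κ * N ^ 2 ≤ A * H →
        Z (xc * Real.exp ε) (short D a b ε A H) ≤
          Real.exp (-(ε * rho ε * A * H / 2)) * Z (xc * Real.exp ε) (paths D a b)) := by
  refine ⟨?_, fun κ hκ => ?_⟩
  · obtain ⟨K, hK, h⟩ := Pool.Agent.U508.NC.main
    refine ⟨K, hK, fun ε hε D a b => ⟨(h ε hε D a b).1, fun u v A H P Q hB => ?_⟩⟩
    exact (h ε hε D a b).2 u v A H P Q hB.1 hB.2
  · obtain ⟨K, hK, h⟩ := Pool.Agent.U508.NC.window hκ
    refine ⟨K, hK, ?_⟩
    filter_upwards [h] with N hN ε hε D a b u v A H P Q hB hD hPQ hAH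
    exact hN ε hε D a b u v A H P Q hB.1 hB.2 hD hPQ hAH

end Pool.Agent.Results.MP_4960b8_pr.NearCriticalLength
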